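import Mathlib
import Pool.Agent.Lib.MP_c2a04f_an.Final

/-!
# MP_c2a04f_an: complements of tame sets in Stein manifolds with the density property are Oka

Let `X` be a Stein manifold with the density property (not necessarily connected) and `Z` a tame
subset of `X`: a closed discrete infinite set such that every injective self-map of `Z` is the
restriction of a holomorphic automorphism of `X`.  Then `X \ Z` is an Oka manifold.
-/

set_option autoImplicit false

namespace Pool.Agent.Results.MP_c2a04f_an.TameComplementOka

open scoped Manifold ContDiff Topology
open Pool.Agent.Lib.MP_55bc5f_an Pool.Agent.Lib.MP_c2a04f_an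

theorem result (V : Type) [NormedAddCommGroup V] [NormedSpace ℂ V] [FiniteDimensional ℂ V]
    (X : CMan V) (hS : IsStein X) (hD : DensityProperty X) (Z : Set X) (hZ : IsTame X Z) :
    IsOka (X.sub ⟨Zᶜ, hZ.closed.isOpen_compl⟩) :=
  main_full V X hS hD Z hZ

end Pool.Agent.Results.MP_c2a04f_an.TameComplementOka
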